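import Pool.Agent.H937.QS.Stm3

/-!
Project QS, task QQ3 (the symmetric group on three letters), for
`Pool.Agent.H937.QS.S_QQ3`.
-/

set_option autoImplicit false

open scoped Matrix TensorProduct
open Pool.Agent.W559.Wr
open Pool.Agent.H937.QS

universe u

namespace Pool.Agent.H356.QS.QQ3

theorem t_QQ3 (hFAMD : S_FAMD.{u}) (hCH3 : S_CH3.{u}) (hGLUE : S_GLUE.{u}) (hCOP : S_COP.{u})
    (hDIST : S_DIST.{u}) : S_QQ3.{u} := by
  intro k _ _ K M _ _ _ _ e hL hsup A hA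
  by_cases hs : ∀ x : K, ∃ c : k, algebraMap k K c = x
  · exact (hDIST k K M 3 e hL).2 hs hsup _ _
  · refine hGLUE k K M 3 e hL hsup ZpD ?_ ?_ A hA
    · rintro F F' hFF' ζ ⟨h, h', h1, h2, h3⟩
      exact ⟨h, h', fun i => hFF' (h1 i), fun i => hFF' (h2 i), h3⟩
    · intro B hB hfrac
      obtain ⟨x, hx⟩ := not_forall.mp hs
      have hb : ∃ b : B, ∀ c : k, algebraMap k K c ≠ b := by
        by_contra hcon
        push Not at hcon
        obtain ⟨a, ha, b, hb, hb0, hab⟩ := hfrac x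
        obtain ⟨c, hc⟩ := hcon ⟨a, ha⟩
        obtain ⟨c', hc'⟩ := hcon ⟨b, hb⟩
        exact hx ⟨c / c', by rw [map_div₀, hc, hc', hab]⟩
      obtain ⟨b0, hb0⟩ := hb
      obtain ⟨R, _, _, j, γ, hcop, hγ, hj⟩ := hCOP k K M 3 e hL B
      have := hB
      exact hFAMD k B M 2 (evK e B)
        (fun m hm N hN hdet => hCH3 k B R M j hcop γ hγ (evK e B)
          (fun b q => (hj b q).symm) m hm N hN hdet)
        b0 ((hDIST k K M 3 e hL).1 b0 hb0)

end Pool.Agent.H356.QS.QQ3
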